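import Mathlib

namespace Pool.Agent.LibBip42

/-- `G` is `k`-connected: `G - U` is connected for every set `U` of at most `k - 1` vertices.
(The graph without vertices counts as connected.) -/
def KConnected (k : ℕ) {V : Type} (G : SimpleGraph V) : Prop :=
  ∀ U : Finset V, U.card < k → (G.induce {v | v ∉ U}).Preconnected

/-- `c` is a proper 2-colouring, i.e. a bipartition of `G`. -/
def IsBipartition {V : Type} (G : SimpleGraph V) (c : V → Bool) : Prop :=
  ∀ x y, G.Adj x y → c x ≠ c y

/-- `S` is the vertex set of an induced cycle: the subgraph induced on `S` is connected and every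
vertex of `S` has exactly two neighbours in `S`. -/
def IsInducedCycle {V : Type} (G : SimpleGraph V) (S : Set V) : Prop :=
  (G.induce S).Connected ∧ ∀ v ∈ S, {w | w ∈ S ∧ G.Adj v w}.ncard = 2

/-- Removing `S` does not increase the number of connected components. -/
def IsNonSeparating {V : Type} (G : SimpleGraph V) (S : Set V) : Prop :=
  Nat.card (G.induce Sᶜ).ConnectedComponent ≤ Nat.card G.ConnectedComponent

/-- `u` and `v` may be identified by an admissible contraction: they have a common neighbour `w`
such that the path `u, w, v` lies on an induced non-separating cycle. -/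
def Admissible {V : Type} (G : SimpleGraph V) (u v : V) : Prop :=
  ∃ (w : V) (S : Set V), IsInducedCycle G S ∧ IsNonSeparating G S ∧ u ∈ S ∧ v ∈ S ∧ w ∈ S ∧
    u ≠ v ∧ G.Adj u w ∧ G.Adj w v

/-- The graph obtained from `G` by identifying `v` with `u` (parallel edges are merged). -/
def identify {V : Type} (G : SimpleGraph V) (u v : V) : SimpleGraph {x : V // x ≠ v} where
  Adj x y := x ≠ y ∧ (G.Adj x y ∨ ((x : V) = u ∧ G.Adj v y) ∨ ((y : V) = u ∧ G.Adj v x))
  symm := ⟨by
    rintro x y ⟨h, h1 | h2 | h3⟩
    · exact ⟨h.symm, Or.inl h1.symm⟩
    · exact ⟨h.symm, Or.inr (Or.inr h2)⟩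
    · exact ⟨h.symm, Or.inr (Or.inl h3)⟩⟩
  loopless := ⟨fun _ h => h.1 rfl⟩

/-- `BipartiteMinor H G`: `H` is obtained from `G` (up to isomorphism) by a finite sequence of
vertex deletions, edge deletions and admissible contractions. -/
inductive BipartiteMinor : ∀ {W V : Type}, SimpleGraph W → SimpleGraph V → Prop
  | iso {W V : Type} {H : SimpleGraph W} {G : SimpleGraph V} :
      Nonempty (H ≃g G) → BipartiteMinor H G
  | deleteVertex {W V : Type} {H : SimpleGraph W} {G : SimpleGraph V} (v : V) :
      BipartiteMinor H (G.induce {x | x ≠ v}) → BipartiteMinor H G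
  | deleteEdge {W V : Type} {H : SimpleGraph W} {G : SimpleGraph V} (a b : V) :
      BipartiteMinor H (G.deleteEdges {s(a, b)}) → BipartiteMinor H G
  | contract {W V : Type} {H : SimpleGraph W} {G : SimpleGraph V} (u v : V) :
      Admissible G u v → BipartiteMinor H (identify G u v) → BipartiteMinor H G

/-- `f` is a side-respecting minor model of `H` (with bipartition `d`) in `G` (with bipartition
`c`): the branch set of `h` is the set of all `v` with `f v = some h`; branch sets are connected,
and every edge `gh` of `H` is realised by an edge of `G` joining a vertex of the branch set of `g`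
on the side of `g` to a vertex of the branch set of `h` on the side of `h`. -/
def IsSideModel {W V : Type} (H : SimpleGraph W) (d : W → Bool) (G : SimpleGraph V)
    (c : V → Bool) (f : V → Option W) : Prop :=
  (∀ h, (G.induce {v | f v = some h}).Connected) ∧
    ∀ g h, H.Adj g h → ∃ x y, f x = some g ∧ f y = some h ∧ c x = d g ∧ c y = d h ∧ G.Adj x y

/-- `H` (with bipartition `d`) is a side-respecting minor of `G` (with bipartition `c`). -/
def SideMinor {W V : Type} (H : SimpleGraph W) (d : W → Bool) (G : SimpleGraph V)
    (c : V → Bool) : Prop :=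
  ∃ f : V → Option W, IsSideModel H d G c f

end Pool.Agent.LibBip42
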