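import Pool.Agent.LibBip42.Defs

namespace Pool.Agent.LibBip42

open Relation

variable {V : Type}

/-- one step inside `A` -/
def Step (G : SimpleGraph V) (A : Set V) (x y : V) : Prop := G.Adj x y ∧ x ∈ A ∧ y ∈ A

/-- `a` and `b` are joined by a walk inside `A`. -/
def Joined (G : SimpleGraph V) (A : Set V) (a b : V) : Prop :=
  a ∈ A ∧ ReflTransGen (Step G A) a b

lemma Joined.refl {G : SimpleGraph V} {A : Set V} {a : V} (h : a ∈ A) : Joined G A a a :=
  ⟨h, ReflTransGen.refl⟩

lemma Joined.left {G : SimpleGraph V} {A : Set V} {a b : V} (h : Joined G A a b) : a ∈ A := h.1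

lemma Joined.right {G : SimpleGraph V} {A : Set V} {a b : V} (h : Joined G A a b) : b ∈ A := by
  obtain ⟨h1, h2⟩ := h
  rcases ReflTransGen.cases_tail h2 with h | ⟨c, -, h⟩
  · rw [h]; exact h1
  · exact h.2.2

lemma Joined.trans {G : SimpleGraph V} {A : Set V} {a b c : V} (h : Joined G A a b)
    (h' : Joined G A b c) : Joined G A a c :=
  ⟨h.1, h.2.trans h'.2⟩

lemma Joined.symm {G : SimpleGraph V} {A : Set V} {a b : V} (h : Joined G A a b) :
    Joined G A b a := by
  have hr := h.right
  obtain ⟨h1, h2⟩ := h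
  refine ⟨hr, ?_⟩
  clear hr
  induction h2 with
  | refl => exact ReflTransGen.refl
  | tail _ hs ih => exact ReflTransGen.head ⟨hs.1.symm, hs.2.2, hs.2.1⟩ ih

lemma Joined.step {G : SimpleGraph V} {A : Set V} {a b : V} (ha : a ∈ A) (hb : b ∈ A)
    (h : G.Adj a b) : Joined G A a b :=
  ⟨ha, ReflTransGen.single ⟨h, ha, hb⟩⟩

lemma Joined.mono {G : SimpleGraph V} {A B : Set V} {a b : V} (hAB : A ⊆ B)
    (h : Joined G A a b) : Joined G B a b := by
  obtain ⟨h1, h2⟩ := h
  refine ⟨hAB h1, ?_⟩
  induction h2 with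
  | refl => exact ReflTransGen.refl
  | tail _ hs ih => exact ReflTransGen.tail ih ⟨hs.1, hAB hs.2.1, hAB hs.2.2⟩

/-- Transport of walks. -/
lemma Joined.map {V' : Type} {G : SimpleGraph V} {G' : SimpleGraph V'} {A : Set V} {B : Set V'}
    {a b : V} (φ : V → V') (hφ : ∀ x ∈ A, φ x ∈ B)
    (hadj : ∀ x ∈ A, ∀ y ∈ A, G.Adj x y → φ x = φ y ∨ G'.Adj (φ x) (φ y))
    (h : Joined G A a b) : Joined G' B (φ a) (φ b) := by
  obtain ⟨h1, h2⟩ := h
  induction h2 with
  | refl => exact Joined.refl (hφ _ h1)
  | tail _ hs ih =>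
    rename_i b c _
    refine ih.trans ?_
    rcases hadj _ hs.2.1 _ hs.2.2 hs.1 with h | h
    · rw [h]; exact Joined.refl (hφ _ hs.2.2)
    · exact Joined.step (hφ _ hs.2.1) (hφ _ hs.2.2) h

/-- An invariant set. -/
lemma Joined.induct {G : SimpleGraph V} {A : Set V} {a b : V} (h : Joined G A a b)
    (P : V → Prop) (ha : P a) (hstep : ∀ x y, x ∈ A → y ∈ A → G.Adj x y → P x → P y) : P b := by
  obtain ⟨h1, h2⟩ := h
  induction h2 with
  | refl => exact ha
  | tail _ hs ih => exact hstep _ _ hs.2.1 hs.2.2 hs.1 ih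

lemma joined_of_reachable {G : SimpleGraph V} {A : Set V} {a b : A}
    (h : (G.induce A).Reachable a b) : Joined G A a b := by
  obtain ⟨p⟩ := h
  induction p with
  | nil => exact Joined.refl (Subtype.property _)
  | cons h _ ih => exact (Joined.step (Subtype.property _) (Subtype.property _) h).trans ih

lemma reachable_of_joined {G : SimpleGraph V} {A : Set V} {a b : V} (h : Joined G A a b) :
    (G.induce A).Reachable ⟨a, h.left⟩ ⟨b, h.right⟩ := by
  have key : ∀ b, ReflTransGen (Step G A) a b → ∀ ha : a ∈ A, ∀ hb : b ∈ A,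
      (G.induce A).Reachable ⟨a, ha⟩ ⟨b, hb⟩ := by
    intro b hb
    induction hb with
    | refl => intro ha hb; exact SimpleGraph.Reachable.refl _
    | tail _ hs ih =>
      intro ha hb
      exact (ih ha hs.2.1).trans (SimpleGraph.Adj.reachable hs.1)
  exact key b h.2 _ _

lemma preconnected_iff {G : SimpleGraph V} {A : Set V} :
    (G.induce A).Preconnected ↔ ∀ a ∈ A, ∀ b ∈ A, Joined G A a b := by
  constructor
  · intro h a ha b hb
    exact joined_of_reachable (h ⟨a, ha⟩ ⟨b, hb⟩)
  · rintro h ⟨a, ha⟩ ⟨b, hb⟩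
    exact reachable_of_joined (h a ha b hb)

lemma connected_iff {G : SimpleGraph V} {A : Set V} :
    (G.induce A).Connected ↔ A.Nonempty ∧ ∀ a ∈ A, ∀ b ∈ A, Joined G A a b := by
  rw [SimpleGraph.connected_iff, preconnected_iff, and_comm]
  simp only [Set.nonempty_coe_sort]

/-- A walk inside `A`, as a function. -/
def IsTrack (G : SimpleGraph V) (A : Set V) (m : ℕ) (p : ℕ → V) : Prop :=
  (∀ i < m, G.Adj (p i) (p (i + 1))) ∧ ∀ i ≤ m, p i ∈ A

lemma IsTrack.joined {G : SimpleGraph V} {A : Set V} {m : ℕ} {p : ℕ → V}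
    (h : IsTrack G A m p) {B : Set V} (i j : ℕ) (hij : i ≤ j) (hj : j ≤ m)
    (hB : ∀ k, i ≤ k → k ≤ j → p k ∈ B) : Joined G B (p i) (p j) := by
  induction j, hij using Nat.le_induction with
  | base => exact Joined.refl (hB i le_rfl le_rfl)
  | succ j hij ih =>
    refine (ih (by omega) (fun k h1 h2 => hB k h1 (by omega))).trans ?_
    exact Joined.step (hB j hij (by omega)) (hB (j + 1) (by omega) le_rfl) (h.1 j (by omega))

lemma exists_track {G : SimpleGraph V} {A : Set V} {a b : V} (h : Joined G A a b) :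
    ∃ m p, IsTrack G A m p ∧ p 0 = a ∧ p m = b := by
  obtain ⟨h1, h2⟩ := h
  induction h2 with
  | refl => exact ⟨0, fun _ => a, ⟨by simp, fun _ _ => h1⟩, rfl, rfl⟩
  | tail _ hs ih =>
    rename_i b c _
    obtain ⟨m, p, hp, h0, hm⟩ := ih
    refine ⟨m + 1, fun i => if i ≤ m then p i else c, ⟨?_, ?_⟩, ?_, ?_⟩
    · intro i hi
      by_cases h : i + 1 ≤ m
      · have h' : i ≤ m := by omega
        simp only [h, h', if_true]
        exact hp.1 i (by omega)
      · have h' : i = m := by omega
        subst h'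
        simp only [le_refl, if_true, h, if_false]
        rw [hm]
        exact hs.1
    · intro i hi
      by_cases h : i ≤ m
      · simp only [h, if_true]; exact hp.2 i h
      · simp only [h, if_false]; exact hs.2.2
    · simp [h0]
    · simp

/-- Among all tracks from `P` to `Q` a shortest one is an induced path. -/
lemma exists_short_track {G : SimpleGraph V} {A : Set V} (P Q : V → Prop)
    (h : ∃ a b, P a ∧ Q b ∧ Joined G A a b) :
    ∃ m p, IsTrack G A m p ∧ P (p 0) ∧ Q (p m) ∧
      (∀ i ≤ m, ∀ j ≤ m, p i = p j → i = j) ∧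
      (∀ i ≤ m, ∀ j ≤ m, G.Adj (p i) (p j) → i + 1 = j ∨ j + 1 = i) ∧
      (∀ i ≤ m, P (p i) → i = 0) ∧ (∀ i ≤ m, Q (p i) → i = m) := by
  classical
  have hex : ∃ m, ∃ p, IsTrack G A m p ∧ P (p 0) ∧ Q (p m) := by
    obtain ⟨a, b, ha, hb, hab⟩ := h
    obtain ⟨m, p, hp, h0, hm⟩ := exists_track hab
    exact ⟨m, p, hp, by rw [h0]; exact ha, by rw [hm]; exact hb⟩
  set m := Nat.find hex with hm
  obtain ⟨p, hp, h0, hmQ⟩ := Nat.find_spec hex
  rw [← hm] at hp hmQ
  have hmin : ∀ m' q, IsTrack G A m' q → P (q 0) → Q (q m') → m ≤ m' :=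
    fun m' q h1 h2 h3 => Nat.find_min' hex ⟨q, h1, h2, h3⟩
  -- shortcuts
  have hcut : ∀ i j, i ≤ m → j ≤ m → i + 1 < j → ¬ G.Adj (p i) (p j) := by
    intro i j hi hj hij hadj
    have := hmin (m - (j - i - 1)) (fun k => if k ≤ i then p k else p (k + (j - i - 1)))
      ⟨?_, ?_⟩ ?_ ?_
    · omega
    · intro k hk
      by_cases h1 : k + 1 ≤ i
      · have h2 : k ≤ i := by omega
        simp only [h1, h2, if_true]
        exact hp.1 k (by omega)
      · by_cases h2 : k = i
        · subst h2
          have h3 : k + 1 + (j - k - 1) = j := by omega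
          simp only [le_refl, if_true, h1, if_false, h3]
          exact hadj
        · have h3 : ¬ k ≤ i := by omega
          simp only [h1, h3, if_false]
          have h4 : k + 1 + (j - i - 1) = k + (j - i - 1) + 1 := by omega
          rw [h4]
          exact hp.1 _ (by omega)
    · intro k hk
      by_cases h1 : k ≤ i
      · simp only [h1, if_true]; exact hp.2 k (by omega)
      · simp only [h1, if_false]; exact hp.2 _ (by omega)
    · simpa using h0
    · have h1 : ¬ m - (j - i - 1) ≤ i := by omega
      have h2 : m - (j - i - 1) + (j - i - 1) = m := by omega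
      simp only [h1, if_false, h2]
      exact hmQ
  have hinj : ∀ i j, i ≤ m → j ≤ m → i < j → p i ≠ p j := by
    intro i j hi hj hij heq
    have := hmin (m - (j - i)) (fun k => if k ≤ i then p k else p (k + (j - i)))
      ⟨?_, ?_⟩ ?_ ?_
    · omega
    · intro k hk
      by_cases h1 : k + 1 ≤ i
      · have h2 : k ≤ i := by omega
        simp only [h1, h2, if_true]
        exact hp.1 k (by omega)
      · by_cases h2 : k = i
        · subst h2
          have h3 : k + 1 + (j - k) = j + 1 := by omega
          simp only [le_refl, if_true, h1, if_false, h3]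
          rw [heq]
          exact hp.1 j (by omega)
        · have h3 : ¬ k ≤ i := by omega
          simp only [h1, h3, if_false]
          have h4 : k + 1 + (j - i) = k + (j - i) + 1 := by omega
          rw [h4]
          exact hp.1 _ (by omega)
    · intro k hk
      by_cases h1 : k ≤ i
      · simp only [h1, if_true]; exact hp.2 k (by omega)
      · simp only [h1, if_false]; exact hp.2 _ (by omega)
    · simpa using h0
    · by_cases h1 : m - (j - i) ≤ i
      · have h2 : j = m := by omega
        have h3 : m - (j - i) = i := by omega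
        simp only [h3, le_refl, if_true]
        rw [heq, h2]
        exact hmQ
      · have h2 : m - (j - i) + (j - i) = m := by omega
        simp only [h1, if_false, h2]
        exact hmQ
  refine ⟨m, p, hp, h0, hmQ, ?_, ?_, ?_, ?_⟩
  · intro i hi j hj heq
    rcases lt_trichotomy i j with h | h | h
    · exact absurd heq (hinj i j hi hj h)
    · exact h
    · exact absurd heq.symm (hinj j i hj hi h)
  · intro i hi j hj hadj
    by_contra hcon
    push Not at hcon
    rcases lt_trichotomy i j with h | h | h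
    · exact hcut i j hi hj (by omega) hadj
    · subst h; exact G.loopless.irrefl _ hadj
    · exact hcut j i hj hi (by omega) hadj.symm
  · intro i hi hP
    have := hmin (m - i) (fun k => p (k + i)) ⟨?_, ?_⟩ ?_ ?_
    · omega
    · intro k hk
      show G.Adj (p (k + i)) (p (k + 1 + i))
      have : k + 1 + i = k + i + 1 := by omega
      rw [this]
      exact hp.1 _ (by omega)
    · intro k hk
      exact hp.2 _ (by omega)
    · simpa using hP
    · have : m - i + i = m := by omega
      simp only [this]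
      exact hmQ
  · intro i hi hQ
    have := hmin i p ⟨fun k hk => hp.1 k (by omega), fun k hk => hp.2 k (by omega)⟩ h0 hQ
    omega

end Pool.Agent.LibBip42
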