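import Pool.Agent.LibBip42.Structure

namespace Pool.Agent.LibBip42

open Relation

lemma bool_aux {a b c : Bool} (h1 : a ≠ b) (h2 : b ≠ c) : a = c := by
  cases a <;> cases b <;> cases c <;> simp_all

section identify

variable {V W : Type} {H : SimpleGraph W} {d : W → Bool} {G : SimpleGraph V} {c : V → Bool}
  {f : V → Option W}

lemma isBipartition_identify (hc : IsBipartition G c) {u v : V} (hcuv : c u = c v) :
    IsBipartition (identify G u v) (fun x => c x) := by
  rintro x y ⟨-, h | ⟨h1, h2⟩ | ⟨h1, h2⟩⟩
  · exact hc _ _ h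
  · show c x ≠ c y
    rw [h1, hcuv]
    exact hc _ _ h2
  · show c x ≠ c y
    rw [h1, hcuv]
    exact (hc _ _ h2).symm

lemma isBipartition_induce (hc : IsBipartition G c) (T : Set V) :
    IsBipartition (G.induce T) (fun x => c x) := fun _ _ h => hc _ _ h

lemma isBipartition_deleteEdges (hc : IsBipartition G c) (s : Set (Sym2 V)) :
    IsBipartition (G.deleteEdges s) c := by
  intro x y h
  rw [SimpleGraph.deleteEdges_adj] at h
  exact hc _ _ h.1

lemma sideMinor_identify (hf : IsSideModel H d G c f) {u v : V} (huv : u ≠ v)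
    (hfuv : f u = f v) (hcuv : c u = c v) :
    SideMinor H d (identify G u v) (fun x => c x) := by
  classical
  set φ : V → {x : V // x ≠ v} := fun x => if hx : x = v then ⟨u, huv⟩ else ⟨x, hx⟩ with hφ
  have hφv : φ v = ⟨u, huv⟩ := by rw [hφ]; simp
  have hφne : ∀ x (hx : x ≠ v), φ x = ⟨x, hx⟩ := fun x hx => by rw [hφ]; simp [hx]
  have hfφ : ∀ x, f (φ x) = f x := by
    intro x
    by_cases hx : x = v
    · subst hx; rw [hφv]; exact hfuv
    · rw [hφne x hx]
  have hcφ : ∀ x, c (φ x) = c x := by
    intro x
    by_cases hx : x = v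
    · subst hx; rw [hφv]; exact hcuv
    · rw [hφne x hx]
  have hadj : ∀ x y, G.Adj x y → φ x = φ y ∨ (identify G u v).Adj (φ x) (φ y) := by
    intro x y hxy
    by_cases heq : φ x = φ y
    · exact Or.inl heq
    right
    refine ⟨heq, ?_⟩
    by_cases hx : x = v
    · subst hx
      have hy : y ≠ x := hxy.ne'
      rw [hφv, hφne y hy]
      exact Or.inr (Or.inl ⟨rfl, hxy⟩)
    · by_cases hy : y = v
      · subst hy
        rw [hφv, hφne x hx]
        exact Or.inr (Or.inr ⟨rfl, hxy.symm⟩)
      · rw [hφne x hx, hφne y hy]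
        exact Or.inl hxy
  refine ⟨fun x => f x, ?_, ?_⟩
  · intro k
    have h1 := hf.1 k
    rw [connected_iff] at h1 ⊢
    obtain ⟨⟨x, hx⟩, h2⟩ := h1
    refine ⟨⟨φ x, ?_⟩, ?_⟩
    · show f (φ x) = some k
      rw [hfφ]; exact hx
    · intro a ha b hb
      have h3 := (h2 a ha b hb).map (G' := identify G u v) (B := {x | f x = some k}) φ ?_ ?_
      · rw [hφne a a.2, hφne b b.2] at h3
        exact h3
      · intro x hx
        show f (φ x) = some k
        rw [hfφ]; exact hx
      · intro x _ y _ hxy
        exact hadj x y hxy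
  · intro g k hgk
    obtain ⟨x, y, hx, hy, hcx, hcy, hxy⟩ := hf.2 g k hgk
    refine ⟨φ x, φ y, ?_, ?_, ?_, ?_, ?_⟩
    · show f (φ x) = some g
      rw [hfφ]; exact hx
    · show f (φ y) = some k
      rw [hfφ]; exact hy
    · show c (φ x) = d g
      rw [hcφ]; exact hcx
    · show c (φ y) = d k
      rw [hcφ]; exact hcy
    · rcases hadj x y hxy with h | h
      · exfalso
        have h1 : f x = f y := by rw [← hfφ x, ← hfφ y, h]
        rw [hx, hy] at h1
        exact hgk.ne (Option.some_injective _ h1)
      · exact h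

end identify

section lift

variable {V W : Type} [Finite V] [Finite W] {H : SimpleGraph W} {d : W → Bool}
  {G : SimpleGraph V} {c : V → Bool} {f : V → Option W}

/-- In a minimal graph with a branch set of at least two vertices there is an admissible pair
inside a branch set. -/
theorem Minimal.exists_admissible (hH : KConnected 3 H) (hd : IsBipartition H d)
    (hc : IsBipartition G c) (hm : Minimal H d G c) (hf : IsSideModel H d G c f) {h : W}
    {u₀ v₀ : V} (hu : f u₀ = some h) (hv : f v₀ = some h) (huv : u₀ ≠ v₀) :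
    ∃ u v, Admissible G u v ∧ f u = f v ∧ c u = c v := by
  classical
  have hfinj : ∀ {v : V} {g g' : W}, f v = some g → f v = some g' → g = g' := by
    intro v g g' h1 h2
    exact Option.some_injective _ (h1.symm.trans h2)
  -- attachments
  have hattex : ∀ g k, ∃ x : V, H.Adj g k → (f x = some g ∧ c x = d g ∧
      (∃ y, f y = some k ∧ G.Adj x y) ∧
      ∀ x' y', f x' = some g → f y' = some k → G.Adj x' y' → x' = x) := by
    intro g k
    by_cases hgk : H.Adj g k
    · obtain ⟨x, y, hx, hy, hcx, hcy, hxy⟩ := hf.2 g k hgk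
      refine ⟨x, fun _ => ⟨hx, hcx, ⟨y, hy, hxy⟩, ?_⟩⟩
      intro x' y' hx' hy' hxy'
      exact ((hm.edge_unique hf hxy hx hy hgk.ne).2.2.2 x' y' hx' hy' hxy').1
    · exact ⟨u₀, fun h' => absurd h' hgk⟩
  choose att hatt using hattex
  have hatt_adj : ∀ g k, H.Adj g k → G.Adj (att g k) (att k g) := by
    intro g k hgk
    obtain ⟨h1, -, ⟨y, hy, hadj⟩, -⟩ := hatt g k hgk
    obtain ⟨-, -, -, h3⟩ := hatt k g hgk.symm
    have := h3 y (att g k) hy h1 hadj.symm
    rw [← this]
    exact hadj
  have hatt_f : ∀ g k, H.Adj g k → f (att g k) = some g := fun g k hgk => (hatt g k hgk).1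
  have hatt_c : ∀ g k, H.Adj g k → c (att g k) = d g := fun g k hgk => (hatt g k hgk).2.1
  -- any edge between different branch sets is an attachment edge
  have hedge : ∀ x y g k, G.Adj x y → f x = some g → f y = some k → g ≠ k →
      H.Adj g k ∧ x = att g k ∧ y = att k g := by
    intro x y g k hxy hx hy hgk
    have h1 := (hm.edge_unique hf hxy hx hy hgk).1
    exact ⟨h1, (hatt g k h1).2.2.2 x y hx hy hxy, (hatt k g h1.symm).2.2.2 y x hy hx hxy.symm⟩
  -- a partition of the neighbours of h
  obtain ⟨x₁, y₁, g₁, x₂, y₂, g₂, h12, hx₁, hx₂, hxy₁, hxy₂, hy₁, hy₂, hg₁, hg₂⟩ :=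
    hm.two_attachments hf hu hv huv
  obtain ⟨hhg₁, hxa₁, -⟩ := hedge x₁ y₁ h g₁ hxy₁ hx₁ hy₁ hg₁.symm
  obtain ⟨hhg₂, hxa₂, -⟩ := hedge x₂ y₂ h g₂ hxy₂ hx₂ hy₂ hg₂.symm
  obtain ⟨S, hhS, ⟨hSconn, hSdeg⟩, hScompl, x, hxN, y, hyN, hxS, hyS⟩ :=
    exists_peripheral hH h {z | H.Adj h z ∧ att h z = x₁} {z | H.Adj h z ∧ att h z ≠ x₁}
      (by
        intro z
        simp only [Set.mem_ofPred_eq]
        tauto)
      (by
        intro z hz hz'
        exact hz'.2 hz.2)
      (by
        refine ⟨g₁, ⟨hhg₁, hxa₁.symm⟩, g₂, ⟨hhg₂, ?_⟩, ?_⟩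
        · rw [← hxa₂]; exact h12.symm
        · by_contra hcon
          have hcon' : ∀ b, b = h ∨ b = g₁ ∨ b = g₂ := by
            intro b
            by_contra hb
            apply hcon
            refine ⟨b, ?_, ?_, ?_⟩ <;> intro h' <;> apply hb <;> simp [h']
          have hne : g₁ ≠ g₂ := by
            rintro rfl
            exact h12 (hxa₁.trans hxa₂.symm)
          have hnadj : ¬ H.Adj g₁ g₂ := by
            intro h'
            have e1 := hd _ _ hhg₁
            have e2 := hd _ _ hhg₂
            have e3 := hd _ _ h'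
            exact e3 (bool_aux e1.symm e2)
          have hpre := hH {h} (by simp)
          rw [preconnected_iff] at hpre
          have := (hpre g₁ (by simp [hg₁]) g₂ (by simp [hg₂])).induct (fun z => z = g₁) rfl (by
            rintro a b ha hb hab rfl
            rcases hcon' b with rfl | rfl | rfl
            · simp at hb
            · rfl
            · exact absurd hab hnadj)
          exact hne this.symm)
  -- the two neighbours on the cycle and a shortest track in the branch set
  have hdata : ∀ g, ∃ a b : W, ∃ m : ℕ, ∃ p : ℕ → V, g ∈ S → (a ≠ b ∧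
      (∀ w, (w ∈ S ∧ H.Adj g w) ↔ (w = a ∨ w = b)) ∧
      IsTrack G {v | f v = some g} m p ∧ p 0 = att g a ∧ p m = att g b ∧
      (∀ i ≤ m, ∀ j ≤ m, p i = p j → i = j) ∧
      (∀ i ≤ m, ∀ j ≤ m, G.Adj (p i) (p j) → i + 1 = j ∨ j + 1 = i)) := by
    intro g
    by_cases hg : g ∈ S
    · obtain ⟨a, b, hab, hset⟩ := Set.ncard_eq_two.mp (hSdeg g hg)
      have hmem : ∀ w, (w ∈ S ∧ H.Adj g w) ↔ (w = a ∨ w = b) := by
        intro w
        have : w ∈ {w | w ∈ S ∧ H.Adj g w} ↔ w ∈ ({a, b} : Set W) := by rw [hset]
        simpa using this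
      have hga : H.Adj g a := ((hmem a).mpr (Or.inl rfl)).2
      have hgb : H.Adj g b := ((hmem b).mpr (Or.inr rfl)).2
      obtain ⟨m, p, h1, h2, h3, h4, h5, -, -⟩ :=
        exists_short_track (G := G) (A := {v | f v = some g}) (fun z => z = att g a)
          (fun z => z = att g b)
          ⟨_, _, rfl, rfl, (connected_iff.mp (hf.1 g)).2 _ (hatt_f g a hga) _ (hatt_f g b hgb)⟩
      exact ⟨a, b, m, p, fun _ => ⟨hab, hmem, h1, h2, h3, h4, h5⟩⟩
    · exact ⟨g, g, 0, fun _ => u₀, fun h' => absurd h' hg⟩
  choose a b m p hdata using hdata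
  set T : Set V := {v | ∃ g ∈ S, ∃ i ≤ m g, p g i = v} with hT
  have hpf : ∀ g ∈ S, ∀ i ≤ m g, f (p g i) = some g := fun g hg i hi => (hdata g hg).2.2.1.2 i hi
  have hTmem : ∀ v g, f v = some g → (v ∈ T ↔ g ∈ S ∧ ∃ i ≤ m g, p g i = v) := by
    intro v g hvg
    constructor
    · rintro ⟨g', hg', i, hi, rfl⟩
      have : g' = g := hfinj (hpf g' hg' i hi) hvg
      subst this
      exact ⟨hg', i, hi, rfl⟩
    · rintro ⟨hg, i, hi, rfl⟩
      exact ⟨g, hg, i, hi, rfl⟩
  have hga : ∀ g ∈ S, a g ∈ S ∧ H.Adj g (a g) := fun g hg =>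
    ((hdata g hg).2.1 (a g)).mpr (Or.inl rfl)
  have hgb : ∀ g ∈ S, b g ∈ S ∧ H.Adj g (b g) := fun g hg =>
    ((hdata g hg).2.1 (b g)).mpr (Or.inr rfl)
  -- attachments to cycle vertices are ends of the tracks
  have hattT : ∀ g ∈ S, ∀ k ∈ S, H.Adj g k → (att g k = p g 0 ∨ att g k = p g (m g)) := by
    intro g hg k hk hgk
    rcases ((hdata g hg).2.1 k).mp ⟨hk, hgk⟩ with rfl | rfl
    · exact Or.inl (hdata g hg).2.2.2.1.symm
    · exact Or.inr (hdata g hg).2.2.2.2.1.symm
  have hattT' : ∀ g ∈ S, ∀ k ∈ S, H.Adj g k → att g k ∈ T := by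
    intro g hg k hk hgk
    rcases hattT g hg k hk hgk with h' | h' <;> rw [h']
    · exact ⟨g, hg, 0, by omega, rfl⟩
    · exact ⟨g, hg, m g, le_rfl, rfl⟩
  have hbase : ∀ g ∈ S, ∀ i ≤ m g, Joined G T (p g 0) (p g i) := by
    intro g hg i hi
    exact (hdata g hg).2.2.1.joined 0 i (by omega) hi (fun k _ hk => ⟨g, hg, k, by omega, rfl⟩)
  -- T is connected
  have hTconn : (G.induce T).Connected := by
    rw [connected_iff]
    refine ⟨⟨p h 0, h, hhS, 0, by omega, rfl⟩, ?_⟩
    have hstep : ∀ g ∈ S, ∀ k ∈ S, H.Adj g k → Joined G T (p g 0) (p k 0) := by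
      intro g hg k hk hgk
      have h1 : Joined G T (p g 0) (att g k) := by
        rcases hattT g hg k hk hgk with h' | h' <;> rw [h']
        · exact hbase g hg 0 (by omega)
        · exact hbase g hg _ le_rfl
      have h2 : Joined G T (p k 0) (att k g) := by
        rcases hattT k hk g hg hgk.symm with h' | h' <;> rw [h']
        · exact hbase k hk 0 (by omega)
        · exact hbase k hk _ le_rfl
      exact (h1.trans (Joined.step h1.right h2.right (hatt_adj g k hgk))).trans h2.symm
    have hS := (connected_iff.mp hSconn).2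
    have hto : ∀ g ∈ S, Joined G T (p h 0) (p g 0) := by
      intro g hg
      refine (hS h hhS g hg).induct (fun z => Joined G T (p h 0) (p z 0)) ?_ ?_
      · exact hbase h hhS 0 (by omega)
      · intro x y hx hy hxy hP
        exact hP.trans (hstep x hx y hy hxy)
    have hall : ∀ v ∈ T, Joined G T (p h 0) v := by
      rintro v ⟨g, hg, i, hi, rfl⟩
      exact (hto g hg).trans (hbase g hg i hi)
    intro v hv w hw
    exact (hall v hv).symm.trans (hall w hw)
  -- T is 2-regular
  have hTdeg : ∀ v ∈ T, {w | w ∈ T ∧ G.Adj v w}.ncard = 2 := by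
    rintro v ⟨g, hg, i, hi, rfl⟩
    obtain ⟨hab, hmem, htr, hp0, hpm, hinj, hind⟩ := hdata g hg
    obtain ⟨haS, haadj⟩ := hga g hg
    obtain ⟨hbS, hbadj⟩ := hgb g hg
    have hfa : f (att (a g) g) = some (a g) := hatt_f _ _ haadj.symm
    have hfb : f (att (b g) g) = some (b g) := hatt_f _ _ hbadj.symm
    have hN : ∀ w, (w ∈ T ∧ G.Adj (p g i) w) ↔
        (∃ j ≤ m g, p g j = w ∧ (i + 1 = j ∨ j + 1 = i)) ∨
        (i = 0 ∧ w = att (a g) g) ∨ (i = m g ∧ w = att (b g) g) := by
      intro w
      constructor
      · rintro ⟨⟨g', hg', j, hj, rfl⟩, hadj⟩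
        by_cases hgg : g' = g
        · subst hgg
          exact Or.inl ⟨j, hj, rfl, hind i hi j hj hadj⟩
        · right
          obtain ⟨h1, h2, h3⟩ := hedge _ _ g g' hadj (hpf g hg i hi) (hpf g' hg' j hj) (Ne.symm hgg)
          rcases (hmem g').mp ⟨hg', h1⟩ with rfl | rfl
          · left
            rw [← hp0] at h2
            exact ⟨hinj i hi 0 (by omega) h2, h3⟩
          · right
            rw [← hpm] at h2
            exact ⟨hinj i hi _ le_rfl h2, h3⟩
      · rintro (⟨j, hj, rfl, h1 | h1⟩ | ⟨h1, rfl⟩ | ⟨h1, rfl⟩)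
        · refine ⟨⟨g, hg, j, hj, rfl⟩, ?_⟩
          rw [← h1]
          exact htr.1 i (by omega)
        · refine ⟨⟨g, hg, j, hj, rfl⟩, ?_⟩
          rw [← h1]
          exact (htr.1 j (by omega)).symm
        · refine ⟨hattT' _ haS _ hg haadj.symm, ?_⟩
          rw [h1, hp0]
          exact hatt_adj _ _ haadj
        · refine ⟨hattT' _ hbS _ hg hbadj.symm, ?_⟩
          rw [h1, hpm]
          exact hatt_adj _ _ hbadj
    have hna : ∀ j ≤ m g, p g j ≠ att (a g) g := by
      intro j hj heq
      have := hfinj (hpf g hg j hj) (heq ▸ hfa)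
      exact haadj.ne this
    have hnb : ∀ j ≤ m g, p g j ≠ att (b g) g := by
      intro j hj heq
      have := hfinj (hpf g hg j hj) (heq ▸ hfb)
      exact hbadj.ne this
    have hnab : att (a g) g ≠ att (b g) g := by
      intro heq
      exact hab (hfinj hfa (heq ▸ hfb))
    by_cases hi0 : i = 0
    · subst hi0
      by_cases hm0 : m g = 0
      · have : {w | w ∈ T ∧ G.Adj (p g 0) w} = {att (a g) g, att (b g) g} := by
          ext w
          rw [Set.mem_ofPred_eq, hN]
          simp only [Set.mem_insert_iff, Set.mem_singleton_iff]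
          constructor
          · rintro (⟨j, hj, rfl, h1 | h1⟩ | ⟨-, h1⟩ | ⟨-, h1⟩)
            · omega
            · omega
            · exact Or.inl h1
            · exact Or.inr h1
          · rintro (h1 | h1)
            · exact Or.inr (Or.inl ⟨by simp, h1⟩)
            · exact Or.inr (Or.inr ⟨hm0.symm, h1⟩)
        rw [this]
        exact Set.ncard_pair hnab
      · have : {w | w ∈ T ∧ G.Adj (p g 0) w} = {att (a g) g, p g 1} := by
          ext w
          rw [Set.mem_ofPred_eq, hN]
          simp only [Set.mem_insert_iff, Set.mem_singleton_iff]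
          constructor
          · rintro (⟨j, hj, rfl, h1 | h1⟩ | ⟨-, h1⟩ | ⟨h2, -⟩)
            · right; rw [← h1]
            · omega
            · exact Or.inl h1
            · omega
          · rintro (h1 | h1)
            · exact Or.inr (Or.inl ⟨by simp, h1⟩)
            · exact Or.inl ⟨1, by omega, h1.symm, by omega⟩
        rw [this]
        exact Set.ncard_pair (Ne.symm (hna 1 (by omega)))
    · by_cases him : i = m g
      · have : {w | w ∈ T ∧ G.Adj (p g i) w} = {att (b g) g, p g (i - 1)} := by
          ext w
          rw [Set.mem_ofPred_eq, hN]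
          simp only [Set.mem_insert_iff, Set.mem_singleton_iff]
          constructor
          · rintro (⟨j, hj, rfl, h1 | h1⟩ | ⟨h2, -⟩ | ⟨-, h1⟩)
            · omega
            · right
              have : j = i - 1 := by omega
              rw [this]
            · omega
            · exact Or.inl h1
          · rintro (h1 | h1)
            · exact Or.inr (Or.inr ⟨him, h1⟩)
            · exact Or.inl ⟨i - 1, by omega, h1.symm, by omega⟩
        rw [this]
        exact Set.ncard_pair (Ne.symm (hnb _ (by omega)))
      · have : {w | w ∈ T ∧ G.Adj (p g i) w} = {p g (i - 1), p g (i + 1)} := by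
          ext w
          rw [Set.mem_ofPred_eq, hN]
          simp only [Set.mem_insert_iff, Set.mem_singleton_iff]
          constructor
          · rintro (⟨j, hj, rfl, h1 | h1⟩ | ⟨h2, -⟩ | ⟨h2, -⟩)
            · right; rw [← h1]
            · left
              have : j = i - 1 := by omega
              rw [this]
            · omega
            · omega
          · rintro (h1 | h1)
            · exact Or.inl ⟨i - 1, by omega, h1.symm, by omega⟩
            · exact Or.inl ⟨i + 1, by omega, h1.symm, by omega⟩
        rw [this]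
        apply Set.ncard_pair
        intro h'
        have := hinj (i - 1) (by omega) (i + 1) (by omega) h'
        omega
  -- the complement of T is connected
  have hTcompl : ∀ v ∈ Tᶜ, ∀ w ∈ Tᶜ, Joined G Tᶜ v w := by
    obtain ⟨⟨k₀, hk₀⟩, hSc⟩ := connected_iff.mp hScompl
    have hfib : ∀ k ∉ S, ∀ v, f v = some k → v ∈ Tᶜ := by
      intro k hk v hv hvT
      exact hk ((hTmem v k hv).mp hvT).1
    have hfibj : ∀ k ∉ S, ∀ v w, f v = some k → f w = some k → Joined G Tᶜ v w := by
      intro k hk v w hv hw
      refine ((connected_iff.mp (hf.1 k)).2 v hv w hw).mono ?_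
      intro z hz
      exact hfib k hk z hz
    obtain ⟨t₀, ht₀⟩ := (connected_iff.mp (hf.1 k₀)).1
    -- all fibres outside S are joined to t₀
    have hout : ∀ k ∉ S, ∀ v, f v = some k → Joined G Tᶜ t₀ v := by
      intro k hk
      refine (hSc k₀ hk₀ k hk).induct (fun z => z ∉ S → ∀ v, f v = some z → Joined G Tᶜ t₀ v) ?_ ?_
        hk
      · intro hz v hv
        exact hfibj k₀ hz t₀ v ht₀ hv
      · intro x y hx hy hxy hP hyS v hv
        have h1 := hP hx (att x y) (hatt_f x y hxy)
        have h2 := hatt_f y x hxy.symm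
        have h3 := hfib y hy _ h2
        refine (h1.trans (Joined.step h1.right h3 (hatt_adj x y hxy))).trans ?_
        exact hfibj y hy _ v h2 hv
    have hin : ∀ v ∈ Tᶜ, Joined G Tᶜ t₀ v := by
      intro v hv
      obtain ⟨g, hg⟩ := hm.total hf v
      by_cases hgS : g ∉ S
      · exact hout g hgS v hg
      rw [not_not] at hgS
      set A' : Set V := {z | f z = some g ∧ z ∉ T} with hA'
      set D : Set V := {z | Joined G A' v z} with hD
      have hvA' : v ∈ A' := ⟨hg, hv⟩
      have hDA' : ∀ z ∈ D, z ∈ A' := fun z hz => hz.right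
      by_cases hex : ∃ z ∈ D, ∃ y k, G.Adj z y ∧ f y = some k ∧ k ∉ S
      · obtain ⟨z, hz, y, k, hzy, hy, hk⟩ := hex
        have h1 := hout k hk y hy
        have h2 : Joined G Tᶜ v z := Joined.mono (fun x hx => hx.2) hz
        exact (h1.trans (Joined.step h1.right h2.right hzy.symm)).trans h2.symm
      · exfalso
        have hnoatt : ∀ z ∈ D, ∀ y k, G.Adj z y → f y = some k → k = g := by
          intro z hz y k hzy hy
          by_contra hkg
          have hzf : f z = some g := (hDA' z hz).1
          obtain ⟨h1, h2, -⟩ := hedge z y g k hzy hzf hy (Ne.symm hkg)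
          by_cases hkS : k ∈ S
          · apply (hDA' z hz).2
            rw [h2]
            exact hattT' g hgS k hkS h1
          · exact hex ⟨z, hz, y, k, hzy, hy, hkS⟩
        set f' : V → Option W := fun z => if z ∈ D then none else f z with hf'
        have hf'D : ∀ z ∈ D, f' z = none := fun z hz => by rw [hf']; simp only [hz, if_true]
        have hf'n : ∀ z, z ∉ D → f' z = f z := fun z hz => by rw [hf']; simp only [hz, if_false]
        have hmod : IsSideModel H d G c f' := by
          refine ⟨?_, ?_⟩
          · intro k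
            by_cases hk : k = g
            · subst hk
              have hset : {z | f' z = some k} = {z | f z = some k ∧ z ∉ D} := by
                ext z
                simp only [Set.mem_ofPred_eq]
                by_cases hz : z ∈ D
                · rw [hf'D z hz]
                  constructor
                  · intro h'; cases h'
                  · intro h'; exact absurd hz h'.2
                · rw [hf'n z hz]
                  exact ⟨fun h' => ⟨h', hz⟩, fun h' => h'.1⟩
              rw [hset, connected_iff]
              have hbD : ∀ i ≤ m k, p k i ∉ D := by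
                intro i hi hiD
                exact (hDA' _ hiD).2 ⟨k, hgS, i, hi, rfl⟩
              have hbmem : ∀ i ≤ m k, p k i ∈ {z | f z = some k ∧ z ∉ D} :=
                fun i hi => ⟨hpf k hgS i hi, hbD i hi⟩
              refine ⟨⟨p k 0, hbmem 0 (by omega)⟩, ?_⟩
              have hto : ∀ z, f z = some k → z ∉ D →
                  Joined G {z | f z = some k ∧ z ∉ D} z (p k 0) := by
                intro z hz hzD
                have h1 : Joined G {z | f z = some k} z (p k 0) :=
                  (connected_iff.mp (hf.1 k)).2 z hz _ (hpf k hgS 0 (by omega))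
                obtain ⟨-, h2⟩ := h1
                revert hzD
                induction h2 using Relation.ReflTransGen.head_induction_on with
                | refl => intro hzD; exact Joined.refl (hbmem 0 (by omega))
                | head hs _ ih =>
                  rename_i z z' _
                  intro hzD
                  by_cases hz'D : z' ∈ D
                  · have hzT : z ∈ T := by
                      by_contra hzT
                      apply hzD
                      exact Joined.trans hz'D (Joined.step (hDA' _ hz'D) ⟨hs.2.1, hzT⟩ hs.1.symm)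
                    obtain ⟨-, i, hi, rfl⟩ := (hTmem z k hs.2.1).mp hzT
                    exact Joined.symm ((hdata k hgS).2.2.1.joined 0 i (by omega) hi
                      (fun l _ hl => hbmem l (by omega)))
                  · have h5 : Joined G {z | f z = some k ∧ z ∉ D} z z' :=
                      Joined.step ⟨hs.2.1, hzD⟩ ⟨hs.2.2, hz'D⟩ hs.1
                    exact h5.trans (ih hs.2.2 hz'D)
              intro x hx y hy
              exact (hto x hx.1 hx.2).trans (hto y hy.1 hy.2).symm
            · have hset : {z | f' z = some k} = {z | f z = some k} := by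
                ext z
                simp only [Set.mem_ofPred_eq]
                by_cases hz : z ∈ D
                · rw [hf'D z hz]
                  constructor
                  · intro h'; cases h'
                  · intro h'; exact absurd (hfinj h' (hDA' z hz).1) hk
                · rw [hf'n z hz]
              rw [hset]
              exact hf.1 k
          · intro g' k' hgk
            obtain ⟨x, y, hx, hy, hcx, hcy, hxy⟩ := hf.2 g' k' hgk
            refine ⟨x, y, ?_, ?_, hcx, hcy, hxy⟩
            · rw [hf'n x]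
              · exact hx
              · intro hxD
                have h1 := hnoatt x hxD y k' hxy hy
                have h2 := hfinj hx (hDA' x hxD).1
                exact hgk.ne (h2.trans h1.symm)
            · rw [hf'n y]
              · exact hy
              · intro hyD
                have h1 := hnoatt y hyD x g' hxy.symm hx
                have h2 := hfinj hy (hDA' y hyD).1
                exact hgk.ne (h1.trans h2.symm)
        exact hm.vert v (sideMinor_induce hmod v (hf'D v (Joined.refl hvA')))
    intro v hv w hw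
    exact (hin v hv).symm.trans (hin w hw)
  -- the admissible pair
  obtain ⟨hab, hmem, htr, hp0, hpm, hinj, hind⟩ := hdata h hhS
  have hne : att h (a h) ≠ att h (b h) := by
    have hx' := (hmem x).mp ⟨hxS, hxN.1⟩
    have hy' := (hmem y).mp ⟨hyS, hyN.1⟩
    have hxy : att h x ≠ att h y := by
      rw [hxN.2]
      exact fun h' => hyN.2 h'.symm
    rcases hx' with rfl | rfl <;> rcases hy' with h' | h'
    · rw [h'] at hxy; exact absurd rfl hxy
    · rw [h'] at hxy; exact hxy
    · rw [h'] at hxy; exact hxy.symm
    · rw [h'] at hxy; exact absurd rfl hxy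
  have hm2 : 2 ≤ m h := by
    have h1 : m h ≠ 0 := by
      intro h'
      rw [h'] at hpm
      exact hne (hp0.symm.trans hpm)
    have h2 : m h ≠ 1 := by
      intro h'
      rw [h'] at hpm
      have h3 := hc _ _ (htr.1 0 (by omega))
      rw [hp0, zero_add, hpm, hatt_c _ _ (hga h hhS).2, hatt_c _ _ (hgb h hhS).2] at h3
      exact h3 rfl
    omega
  have hf0 := hpf h hhS 0 (by omega)
  have hf2 := hpf h hhS 2 hm2
  refine ⟨p h 0, p h 2, ⟨p h 1, T, ⟨hTconn, hTdeg⟩, ?_, ⟨h, hhS, 0, by omega, rfl⟩,
    ⟨h, hhS, 2, hm2, rfl⟩, ⟨h, hhS, 1, by omega, rfl⟩, ?_, htr.1 0 (by omega),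
    htr.1 1 (by omega)⟩, hf0.trans hf2.symm, ?_⟩
  · unfold IsNonSeparating
    have h1 : (G.induce Tᶜ).Preconnected := preconnected_iff.mpr hTcompl
    have h2 : Nat.card (G.induce Tᶜ).ConnectedComponent ≤ 1 := by
      have := h1.subsingleton_connectedComponent
      exact Finite.card_le_one_iff_subsingleton.mpr inferInstance
    have h3 : 0 < Nat.card G.ConnectedComponent := by
      have : Nonempty G.ConnectedComponent := ⟨G.connectedComponentMk u₀⟩
      exact Finite.card_pos
    omega
  · intro h'
    have := hinj 0 (by omega) 2 hm2 h'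
    omega
  · have h1 := hc _ _ (htr.1 0 (by omega))
    have h2 := hc _ _ (htr.1 1 (by omega))
    simp only [zero_add, Nat.reduceAdd] at h1 h2
    exact bool_aux h1 h2

end lift

section main

variable {W : Type} [Finite W] {H : SimpleGraph W} {d : W → Bool}

theorem main (hH : KConnected 3 H) (hd : IsBipartition H d) :
    ∀ n : ℕ, ∀ (V : Type) [Finite V], Nat.card V = n → ∀ m : ℕ, ∀ (G : SimpleGraph V)
      (c : V → Bool), G.edgeSet.ncard = m → IsBipartition G c → SideMinor H d G c →
      BipartiteMinor H G := by
  classical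
  intro n
  induction n using Nat.strong_induction_on with
  | _ n ihn =>
    intro V _ hVn m
    induction m using Nat.strong_induction_on with
    | _ m ihm =>
      intro G c hGm hc hmod
      have hcard : ∀ v : V, Nat.card {x : V // x ≠ v} < n := by
        intro v
        rw [← hVn]
        exact Finite.card_subtype_lt (x := v) (by simp)
      by_cases hv : ∃ v, SideMinor H d (G.induce {x | x ≠ v}) (fun x => c x)
      · obtain ⟨v, hv⟩ := hv
        exact BipartiteMinor.deleteVertex v
          (ihn _ (hcard v) _ rfl _ _ _ rfl (isBipartition_induce hc _) hv)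
      by_cases he : ∃ a b, G.Adj a b ∧ SideMinor H d (G.deleteEdges {s(a, b)}) c
      · obtain ⟨a, b, hab, he⟩ := he
        refine BipartiteMinor.deleteEdge a b (ihm _ ?_ _ c rfl (isBipartition_deleteEdges hc _) he)
        rw [← hGm, SimpleGraph.edgeSet_deleteEdges]
        apply Set.ncard_lt_ncard _ (Set.toFinite _)
        refine ⟨Set.sdiff_subset, fun h' => ?_⟩
        exact (h' (show s(a, b) ∈ G.edgeSet from hab)).2 rfl
      have hm : Minimal H d G c := by
        refine ⟨fun v h' => hv ⟨v, h'⟩, fun a b hab h' => he ⟨a, b, hab, h'⟩⟩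
      obtain ⟨f, hf⟩ := hmod
      by_cases hinj : ∃ u₀ v₀, u₀ ≠ v₀ ∧ ∃ h, f u₀ = some h ∧ f v₀ = some h
      · obtain ⟨u₀, v₀, huv, h, hu, hv'⟩ := hinj
        obtain ⟨u, v, hadm, hfuv, hcuv⟩ := hm.exists_admissible hH hd hc hf hu hv' huv
        have huv' : u ≠ v := by
          obtain ⟨w, S, -, -, -, -, -, h', -⟩ := hadm
          exact h'
        exact BipartiteMinor.contract u v hadm
          (ihn _ (hcard v) _ rfl _ _ _ rfl (isBipartition_identify hc hcuv)
            (sideMinor_identify hf huv' hfuv hcuv))
      · -- f is a bijection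
        have hinj' : ∀ u₀ v₀ h, f u₀ = some h → f v₀ = some h → u₀ = v₀ := by
          intro u₀ v₀ h h1 h2
          by_contra h3
          exact hinj ⟨u₀, v₀, h3, h, h1, h2⟩
        choose φ hφ using fun v => hm.total hf v
        have hsurj : ∀ h, ∃ v, f v = some h := fun h => (connected_iff.mp (hf.1 h)).1
        choose ψ hψ using hsurj
        have hleft : ∀ v, ψ (φ v) = v := fun v => hinj' _ _ (φ v) (hψ _) (hφ v)
        have hright : ∀ h, φ (ψ h) = h := fun h =>
          Option.some_injective _ ((hφ (ψ h)).symm.trans (hψ h))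
        apply BipartiteMinor.iso
        refine ⟨⟨⟨ψ, φ, hright, hleft⟩, ?_⟩⟩
        intro g k
        show G.Adj (ψ g) (ψ k) ↔ H.Adj g k
        constructor
        · intro h'
          have hne : g ≠ k := by
            rintro rfl
            exact G.loopless.irrefl _ h'
          exact (hm.edge_unique hf h' (hψ g) (hψ k) hne).1
        · intro h'
          obtain ⟨x, y, hx, hy, -, -, hxy⟩ := hf.2 g k h'
          rw [hinj' _ _ g (hψ g) hx, hinj' _ _ k (hψ k) hy]
          exact hxy

end main

end Pool.Agent.LibBip42
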