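import Pool.Agent.LibBip42.Joined

namespace Pool.Agent.LibBip42

variable {W : Type} [Finite W]

/-- In a 3-connected graph a set `D` has at least three outer neighbours, unless every vertex lies
in `D` or next to `D`. -/
lemma three_le_boundary {H : SimpleGraph W} (hH : KConnected 3 H) {D : Set W} {a b : W}
    (ha : a ∈ D) (hb : b ∉ D) (hb' : ∀ w ∈ D, ¬ H.Adj w b) :
    2 < {z | z ∉ D ∧ ∃ w ∈ D, H.Adj w z}.ncard := by
  classical
  by_contra hcon
  push Not at hcon
  set U := {z | z ∉ D ∧ ∃ w ∈ D, H.Adj w z} with hU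
  have hfin : U.Finite := Set.toFinite U
  have hpre := hH hfin.toFinset (by
    rw [← Set.ncard_eq_toFinset_card U hfin]
    omega)
  have hset : {v | v ∉ hfin.toFinset} = Uᶜ := by
    ext v; simp
  rw [hset, preconnected_iff] at hpre
  have haU : a ∈ Uᶜ := fun h => h.1 ha
  have hbU : b ∈ Uᶜ := by
    rintro ⟨-, w, hw, hadj⟩
    exact hb' w hw hadj
  have := (hpre a haU b hbU).induct (fun z => z ∈ D) ha (by
    intro x y hx hy hxy hxD
    by_contra hyD
    exact hy ⟨hyD, x, hxD, hxy⟩)
  exact hb this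

/-- **Peripheral cycles.** Let `H` be 3-connected, `h` a vertex and `N₁, N₂` a partition of the
neighbours of `h`. If there are `x ∈ N₁`, `y ∈ N₂` and a further vertex, then some induced cycle
`S` through `h` uses one vertex of `N₁` and one of `N₂` and has connected complement. -/
theorem exists_peripheral {H : SimpleGraph W} (hH : KConnected 3 H) (h : W) (N₁ N₂ : Set W)
    (hN : ∀ z, H.Adj h z ↔ z ∈ N₁ ∨ z ∈ N₂) (hdisj : ∀ z, z ∈ N₁ → z ∉ N₂)
    (hex : ∃ x ∈ N₁, ∃ y ∈ N₂, ∃ b, b ≠ h ∧ b ≠ x ∧ b ≠ y) :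
    ∃ S : Set W, h ∈ S ∧ IsInducedCycle H S ∧ (H.induce Sᶜ).Connected ∧
      ∃ x ∈ N₁, ∃ y ∈ N₂, x ∈ S ∧ y ∈ S := by
  classical
  have hh1 : ∀ z ∈ N₁, z ≠ h := by
    rintro z hz rfl
    exact H.loopless.irrefl _ ((hN z).mpr (Or.inl hz))
  have hh2 : ∀ z ∈ N₂, z ≠ h := by
    rintro z hz rfl
    exact H.loopless.irrefl _ ((hN z).mpr (Or.inr hz))
  -- crossing sets
  set Cross : Set W → Prop := fun A => ∃ x y, x ∈ N₁ ∧ y ∈ N₂ ∧ Joined H A x y with hCross
  set 𝓑 : Set (Set W) := {B | B.Nonempty ∧ h ∉ B ∧ (∀ a ∈ B, ∀ b ∈ B, Joined H B a b) ∧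
    Cross {z | z ≠ h ∧ z ∉ B}} with h𝓑
  have hne : 𝓑.Nonempty := by
    obtain ⟨x, hx, y, hy, b, hbh, hbx, hby⟩ := hex
    refine ⟨{b}, ⟨b, rfl⟩, fun hc => hbh (Set.mem_singleton_iff.mp hc).symm, ?_, ?_⟩
    · rintro a ha c hc
      rw [Set.mem_singleton_iff] at ha hc
      subst ha; subst hc
      exact Joined.refl rfl
    · refine ⟨x, y, hx, hy, ?_⟩
      have hpre := hH {h, b} (by
        have := Finset.card_le_two (a := h) (b := b)
        omega)
      rw [preconnected_iff] at hpre
      refine (hpre x ?_ y ?_).mono ?_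
      · simp [hh1 x hx, Ne.symm hbx]
      · simp [hh2 y hy, Ne.symm hby]
      · intro z hz
        simp at hz
        exact ⟨hz.1, hz.2⟩
  obtain ⟨B, hB, hBmax⟩ := Set.exists_max_image 𝓑 Set.ncard (Set.toFinite 𝓑) hne
  obtain ⟨hBne, hhB, hBconn, hBcross⟩ := hB
  set X : Set W := {z | z ≠ h ∧ z ∉ B} with hX
  -- vertices of `X` with a neighbour in `B` are unavoidable
  have hunav : ∀ n ∈ X, (∃ b ∈ B, H.Adj n b) → ¬ Cross {z | z ∈ X ∧ z ≠ n} := by
    rintro n hn ⟨b, hb, hnb⟩ hcr
    have hmem : insert n B ∈ 𝓑 := by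
      refine ⟨Set.insert_nonempty _ _, ?_, ?_, ?_⟩
      · rw [Set.mem_insert_iff]
        rintro (h' | h')
        · exact hn.1 h'.symm
        · exact hhB h'
      · have hb' : ∀ a ∈ insert n B, Joined H (insert n B) a b := by
          intro a ha
          rw [Set.mem_insert_iff] at ha
          rcases ha with rfl | ha
          · exact Joined.step (Set.mem_insert _ _) (Set.mem_insert_of_mem _ hb) hnb
          · exact (hBconn a ha b hb).mono (Set.subset_insert _ _)
        intro a ha c hc
        exact (hb' a ha).trans (hb' c hc).symm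
      · obtain ⟨x, y, hx, hy, hxy⟩ := hcr
        refine ⟨x, y, hx, hy, hxy.mono ?_⟩
        rintro z ⟨⟨hz1, hz2⟩, hz3⟩
        refine ⟨hz1, ?_⟩
        rw [Set.mem_insert_iff]
        rintro (h' | h')
        · exact hz3 h'
        · exact hz2 h'
    have := hBmax _ hmem
    rw [Set.ncard_insert_of_notMem hn.2 (Set.toFinite B)] at this
    omega
  -- a shortest crossing path
  obtain ⟨m, p, hp, hp0, hpm, hinj, hind, hN1, hN2⟩ :=
    exists_short_track (G := H) (A := X) (fun z => z ∈ N₁) (fun z => z ∈ N₂)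
      (by obtain ⟨x, y, hx, hy, hxy⟩ := hBcross; exact ⟨x, y, hx, hy, hxy⟩)
  have hm0 : m ≠ 0 := by
    rintro rfl
    exact hdisj _ hp0 hpm
  -- every unavoidable vertex is on the path
  have honpath : ∀ n ∈ X, (∃ b ∈ B, H.Adj n b) → ∃ i ≤ m, p i = n := by
    intro n hn hb
    by_contra hcon
    push Not at hcon
    apply hunav n hn hb
    refine ⟨p 0, p m, hp0, hpm, hp.joined 0 m (by omega) le_rfl ?_⟩
    intro k _ hk
    exact ⟨hp.2 k hk, hcon k hk⟩
  -- every vertex of `X` has a neighbour in `B`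
  have hall : ∀ v ∈ X, ∃ b ∈ B, H.Adj v b := by
    intro v hv
    by_contra hvB
    set X' : Set W := {z | z ∈ X ∧ ¬ ∃ b ∈ B, H.Adj z b} with hX'
    have hvX' : v ∈ X' := ⟨hv, hvB⟩
    set D : Set W := {z | Joined H X' v z} with hD
    have hDX' : ∀ z ∈ D, z ∈ X' := fun z hz => hz.right
    obtain ⟨b₀, hb₀⟩ := hBne
    have h3 : 2 < {z | z ∉ D ∧ ∃ w ∈ D, H.Adj w z}.ncard := by
      apply three_le_boundary hH (a := v) (b := b₀)
      · exact Joined.refl hvX'
      · intro h'
        exact (hDX' _ h').1.2 hb₀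
      · intro w hw hadj
        exact (hDX' _ hw).2 ⟨b₀, hb₀, hadj⟩
    set U := {z | z ∉ D ∧ ∃ w ∈ D, H.Adj w z} with hU
    -- the outer neighbours of `D`
    have hUmem : ∀ z ∈ U, z = h ∨ ∃ i ≤ m, p i = z ∧ z ∈ X ∧ ∃ b ∈ B, H.Adj z b := by
      rintro z ⟨hzD, w, hw, hwz⟩
      by_cases hzh : z = h
      · exact Or.inl hzh
      · right
        have hzB : z ∉ B := by
          intro hzB
          exact (hDX' _ hw).2 ⟨z, hzB, hwz⟩
        have hzX : z ∈ X := ⟨hzh, hzB⟩
        have hzb : ∃ b ∈ B, H.Adj z b := by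
          by_contra hcon
          apply hzD
          have hzX' : z ∈ X' := ⟨hzX, hcon⟩
          exact Joined.trans hw (Joined.step (hDX' _ hw) hzX' hwz)
        obtain ⟨i, hi, hiz⟩ := honpath z hzX hzb
        exact ⟨i, hi, hiz, hzX, hzb⟩
    -- D is joined inside
    have hDsub : ∀ i ≤ m, (∃ b ∈ B, H.Adj (p i) b) → X' ⊆ {z | z ∈ X ∧ z ≠ p i} := by
      intro i hi hb z hz
      refine ⟨hz.1, ?_⟩
      rintro rfl
      exact hz.2 hb
    have hDjoin : ∀ i ≤ m, (∃ b ∈ B, H.Adj (p i) b) → ∀ w ∈ D, ∀ w' ∈ D,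
        Joined H {z | z ∈ X ∧ z ≠ p i} w w' := by
      intro i hi hb w hw w' hw'
      exact (Joined.trans (Joined.symm hw) hw').mono (hDsub i hi hb)
    have hseg : ∀ l ≤ m, ∀ i j, i ≤ j → j ≤ m → (∀ k, i ≤ k → k ≤ j → k ≠ l) →
        Joined H {z | z ∈ X ∧ z ≠ p l} (p i) (p j) := by
      intro l hl i j hij hj hk
      apply hp.joined i j hij hj
      intro k h1 h2
      refine ⟨hp.2 k (by omega), ?_⟩
      intro heq
      exact hk k h1 h2 (hinj k (by omega) l hl heq)
    -- from D to a path vertex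
    have hstep : ∀ l ≤ m, (∃ b ∈ B, H.Adj (p l) b) → ∀ w ∈ D, ∀ i ≤ m, i ≠ l → H.Adj w (p i) →
        Joined H {z | z ∈ X ∧ z ≠ p l} w (p i) := by
      intro l hl hb w hw i hi hil hadj
      apply Joined.step
      · exact hDsub l hl hb (hDX' _ hw)
      · exact ⟨hp.2 i hi, fun heq => hil (hinj i hi l hl heq)⟩
      · exact hadj
    -- case h is an outer neighbour
    have case2 : ∀ i j, i < j → j ≤ m → p i ∈ U → p j ∈ U → (∃ b ∈ B, H.Adj (p i) b) →
        (∃ b ∈ B, H.Adj (p j) b) → h ∈ U → False := by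
      rintro i j hij hj ⟨-, wi, hwi, hi'⟩ ⟨-, wj, hwj, hj'⟩ hbi hbj ⟨-, w, hw, hwh⟩
      rcases (hN w).mp hwh.symm with h1 | h1
      · apply hunav (p i) (hp.2 i (by omega)) hbi
        refine ⟨w, p m, h1, hpm, ?_⟩
        refine (hDjoin i (by omega) hbi w hw wj hwj).trans ?_
        refine (hstep i (by omega) hbi wj hwj j hj (by omega) hj').trans ?_
        exact hseg i (by omega) j m hj le_rfl (by intro k h2 h3; omega)
      · apply hunav (p j) (hp.2 j hj) hbj
        refine ⟨p 0, w, hp0, h1, ?_⟩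
        refine (hseg j hj 0 i (by omega) (by omega) (by intro k h2 h3; omega)).trans ?_
        refine (hstep j hj hbj wi hwi i (by omega) (by omega) hi').symm.trans ?_
        exact hDjoin j hj hbj wi hwi w hw
    have case3 : ∀ i l j, i < l → l < j → j ≤ m → p i ∈ U → p j ∈ U →
        (∃ b ∈ B, H.Adj (p l) b) → False := by
      rintro i l j hil hlj hj ⟨-, wi, hwi, hi'⟩ ⟨-, wj, hwj, hj'⟩ hbl
      apply hunav (p l) (hp.2 l (by omega)) hbl
      refine ⟨p 0, p m, hp0, hpm, ?_⟩
      refine (hseg l (by omega) 0 i (by omega) (by omega) (by intro k h2 h3; omega)).trans ?_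
      refine (hstep l (by omega) hbl wi hwi i (by omega) (by omega) hi').symm.trans ?_
      refine (hDjoin l (by omega) hbl wi hwi wj hwj).trans ?_
      refine (hstep l (by omega) hbl wj hwj j hj (by omega) hj').trans ?_
      exact hseg l (by omega) j m hj le_rfl (by intro k h2 h3; omega)
    obtain ⟨a, b, c, ha, hb, hc, hab, hac, hbc⟩ := (Set.two_lt_ncard_iff (Set.toFinite U)).mp h3
    -- two path vertices and h
    have two : ∀ x y, x ∈ U → y ∈ U → x ≠ y → x ≠ h → y ≠ h → h ∈ U → False := by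
      intro x y hx hy hxy hxh hyh hhU
      rcases hUmem x hx with h' | ⟨i, hi, rfl, -, hbi⟩
      · exact hxh h'
      rcases hUmem y hy with h' | ⟨j, hj, rfl, -, hbj⟩
      · exact hyh h'
      rcases lt_trichotomy i j with h' | h' | h'
      · exact case2 i j h' hj hx hy hbi hbj hhU
      · exact hxy (by rw [h'])
      · exact case2 j i h' hi hy hx hbj hbi hhU
    by_cases hah : a = h
    · subst hah
      exact two b c hb hc hbc (Ne.symm hab) (Ne.symm hac) ha
    by_cases hbh : b = h
    · subst hbh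
      exact two a c ha hc hac hab (Ne.symm hbc) hb
    by_cases hch : c = h
    · subst hch
      exact two a b ha hb hab hac hbc hc
    rcases hUmem a ha with h' | ⟨i, hi, rfl, -, hbi⟩
    · exact hah h'
    rcases hUmem b hb with h' | ⟨j, hj, rfl, -, hbj⟩
    · exact hbh h'
    rcases hUmem c hc with h' | ⟨l, hl, rfl, -, hbl⟩
    · exact hch h'
    have hij : i ≠ j := fun h' => hab (by rw [h'])
    have hil : i ≠ l := fun h' => hac (by rw [h'])
    have hjl : j ≠ l := fun h' => hbc (by rw [h'])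
    rcases lt_or_gt_of_ne hij with h1 | h1 <;> rcases lt_or_gt_of_ne hil with h2 | h2 <;>
      rcases lt_or_gt_of_ne hjl with h4 | h4
    · exact case3 i j l h1 h4 hl ha hc hbj
    · exact case3 i l j h2 h4 hj ha hb hbl
    · omega
    · exact case3 l i j h2 h1 hj hc hb hbi
    · exact case3 j i l h1 h2 hl hb hc hbi
    · omega
    · exact case3 j l i h4 h2 hi hb ha hbl
    · exact case3 l j i h4 h1 hi hc ha hbj
  -- the cycle
  have hXp : ∀ z, z ∈ X ↔ ∃ i ≤ m, p i = z := by
    intro z
    constructor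
    · intro hz
      exact honpath z hz (hall z hz)
    · rintro ⟨i, hi, rfl⟩
      exact hp.2 i hi
  have hadj_h : ∀ i ≤ m, H.Adj h (p i) ↔ i = 0 ∨ i = m := by
    intro i hi
    constructor
    · intro hadj
      rcases (hN _).mp hadj with h1 | h1
      · exact Or.inl (hN1 i hi h1)
      · exact Or.inr (hN2 i hi h1)
    · rintro (rfl | rfl)
      · exact (hN _).mpr (Or.inl hp0)
      · exact (hN _).mpr (Or.inr hpm)
  have hadj_p : ∀ i ≤ m, ∀ j ≤ m, H.Adj (p i) (p j) ↔ i + 1 = j ∨ j + 1 = i := by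
    intro i hi j hj
    constructor
    · exact hind i hi j hj
    · rintro (rfl | rfl)
      · exact hp.1 i (by omega)
      · exact (hp.1 j (by omega)).symm
  have hph : ∀ i ≤ m, p i ≠ h := fun i hi => (hp.2 i hi).1
  refine ⟨Bᶜ, hhB, ⟨?_, ?_⟩, ?_, p 0, hp0, p m, hpm, (hp.2 0 (by omega)).2, (hp.2 m le_rfl).2⟩
  · rw [connected_iff]
    refine ⟨⟨h, hhB⟩, ?_⟩
    have hto : ∀ a ∈ Bᶜ, Joined H Bᶜ a h := by
      intro a ha
      by_cases hah : a = h
      · subst hah; exact Joined.refl ha
      · obtain ⟨i, hi, rfl⟩ := (hXp a).mp ⟨hah, ha⟩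
        refine (Joined.symm (hp.joined 0 i (by omega) hi (fun k _ hk => ?_))).trans ?_
        · exact (hp.2 k (by omega)).2
        · exact Joined.step (hp.2 0 (by omega)).2 hhB ((hadj_h 0 (by omega)).mpr (Or.inl rfl)).symm
    intro a ha b hb
    exact (hto a ha).trans (hto b hb).symm
  · intro v hv
    by_cases hvh : v = h
    · subst hvh
      have : {w | w ∈ Bᶜ ∧ H.Adj v w} = {p 0, p m} := by
        ext w
        simp only [Set.mem_ofPred_eq, Set.mem_insert_iff, Set.mem_singleton_iff]
        constructor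
        · rintro ⟨hw, hadj⟩
          have hwh : w ≠ v := fun h' => H.loopless.irrefl _ (h' ▸ hadj)
          obtain ⟨i, hi, rfl⟩ := (hXp w).mp ⟨hwh, hw⟩
          rcases (hadj_h i hi).mp hadj with rfl | rfl
          · exact Or.inl rfl
          · exact Or.inr rfl
        · rintro (rfl | rfl)
          · exact ⟨(hp.2 0 (by omega)).2, (hadj_h 0 (by omega)).mpr (Or.inl rfl)⟩
          · exact ⟨(hp.2 m le_rfl).2, (hadj_h m le_rfl).mpr (Or.inr rfl)⟩
      rw [this]
      exact Set.ncard_pair (fun h' => hm0 (hinj 0 (by omega) m le_rfl h').symm)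
    · obtain ⟨i, hi, rfl⟩ := (hXp v).mp ⟨hvh, hv⟩
      -- the two neighbours
      have hmem : ∀ w, (w ∈ Bᶜ ∧ H.Adj (p i) w) ↔
          (w = h ∧ (i = 0 ∨ i = m)) ∨ (∃ j ≤ m, p j = w ∧ (i + 1 = j ∨ j + 1 = i)) := by
        intro w
        constructor
        · rintro ⟨hw, hadj⟩
          by_cases hwh : w = h
          · left
            refine ⟨hwh, (hadj_h i hi).mp ?_⟩
            rw [← hwh]; exact hadj.symm
          · right
            obtain ⟨j, hj, rfl⟩ := (hXp w).mp ⟨hwh, hw⟩
            exact ⟨j, hj, rfl, (hadj_p i hi j hj).mp hadj⟩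
        · rintro (⟨rfl, h'⟩ | ⟨j, hj, rfl, h'⟩)
          · exact ⟨hhB, ((hadj_h i hi).mpr h').symm⟩
          · exact ⟨(hp.2 j hj).2, (hadj_p i hi j hj).mpr h'⟩
      by_cases hi0 : i = 0
      · subst hi0
        have : {w | w ∈ Bᶜ ∧ H.Adj (p 0) w} = {h, p 1} := by
          ext w
          rw [Set.mem_ofPred_eq, hmem]
          simp only [Set.mem_insert_iff, Set.mem_singleton_iff]
          constructor
          · rintro (⟨rfl, -⟩ | ⟨j, hj, rfl, h' | h'⟩)
            · exact Or.inl rfl
            · right; rw [← h']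
            · omega
          · rintro (rfl | rfl)
            · exact Or.inl ⟨rfl, by simp⟩
            · exact Or.inr ⟨1, by omega, rfl, Or.inl rfl⟩
        rw [this]
        exact Set.ncard_pair (Ne.symm (hph 1 (by omega)))
      · by_cases him : i = m
        · subst him
          have : {w | w ∈ Bᶜ ∧ H.Adj (p i) w} = {h, p (i - 1)} := by
            ext w
            rw [Set.mem_ofPred_eq, hmem]
            simp only [Set.mem_insert_iff, Set.mem_singleton_iff]
            constructor
            · rintro (⟨rfl, -⟩ | ⟨j, hj, rfl, h' | h'⟩)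
              · exact Or.inl rfl
              · omega
              · right
                have : j = i - 1 := by omega
                rw [this]
            · rintro (rfl | rfl)
              · exact Or.inl ⟨rfl, by simp⟩
              · exact Or.inr ⟨i - 1, by omega, rfl, Or.inr (by omega)⟩
          rw [this]
          exact Set.ncard_pair (Ne.symm (hph _ (by omega)))
        · have : {w | w ∈ Bᶜ ∧ H.Adj (p i) w} = {p (i - 1), p (i + 1)} := by
            ext w
            rw [Set.mem_ofPred_eq, hmem]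
            simp only [Set.mem_insert_iff, Set.mem_singleton_iff]
            constructor
            · rintro (⟨rfl, h'⟩ | ⟨j, hj, rfl, h' | h'⟩)
              · omega
              · right; rw [← h']
              · left
                have : j = i - 1 := by omega
                rw [this]
            · rintro (rfl | rfl)
              · exact Or.inr ⟨i - 1, by omega, rfl, Or.inr (by omega)⟩
              · exact Or.inr ⟨i + 1, by omega, rfl, Or.inl rfl⟩
          rw [this]
          apply Set.ncard_pair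
          intro h'
          have := hinj (i - 1) (by omega) (i + 1) (by omega) h'
          omega
  · rw [compl_compl, connected_iff]
    exact ⟨hBne, hBconn⟩

end Pool.Agent.LibBip42
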