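import Pool.Agent.LibBip42.Peripheral

namespace Pool.Agent.LibBip42

open Relation

section basic

variable {V W : Type}

lemma Joined.induce {G : SimpleGraph V} {A T : Set V} (hAT : A ⊆ T) {a b : V}
    (h : Joined G A a b) :
    Joined (G.induce T) {x : T | (x : V) ∈ A} ⟨a, hAT h.left⟩ ⟨b, hAT h.right⟩ := by
  have key : ∀ b, ReflTransGen (Step G A) a b → ∀ ha : a ∈ A, ∀ hb : b ∈ A,
      Joined (G.induce T) {x : T | (x : V) ∈ A} ⟨a, hAT ha⟩ ⟨b, hAT hb⟩ := by
    intro b hb
    induction hb with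
    | refl => intro ha hb; exact Joined.refl ha
    | tail _ hs ih =>
      intro ha hb
      exact (ih ha hs.2.1).trans (Joined.step hs.2.1 hb hs.1)
  exact key b h.2 h.left h.right

lemma sideMinor_induce {H : SimpleGraph W} {d : W → Bool} {G : SimpleGraph V} {c : V → Bool}
    {f : V → Option W} (hf : IsSideModel H d G c f) (v : V) (hv : f v = none) :
    SideMinor H d (G.induce {x | x ≠ v}) (fun x => c x) := by
  refine ⟨fun x => f x, ?_, ?_⟩
  · intro h
    have h1 := hf.1 h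
    rw [connected_iff] at h1 ⊢
    have hsub : {x | f x = some h} ⊆ {x | x ≠ v} := by
      rintro x hx rfl
      simp only [Set.mem_ofPred_eq] at hx
      rw [hv] at hx
      cases hx
    obtain ⟨⟨x, hx⟩, h2⟩ := h1
    refine ⟨⟨⟨x, hsub hx⟩, hx⟩, ?_⟩
    rintro ⟨a, ha⟩ ha' ⟨b, hb⟩ hb'
    exact (h2 a ha' b hb').induce hsub
  · intro g h hgh
    obtain ⟨x, y, hx, hy, hcx, hcy, hxy⟩ := hf.2 g h hgh
    refine ⟨⟨x, ?_⟩, ⟨y, ?_⟩, hx, hy, hcx, hcy, hxy⟩
    · rintro rfl; rw [hv] at hx; cases hx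
    · rintro rfl; rw [hv] at hy; cases hy

end basic

section minimal

variable {V W : Type} {H : SimpleGraph W} {d : W → Bool} {G : SimpleGraph V} {c : V → Bool}

/-- `G` is minimal with a model. -/
structure Minimal (H : SimpleGraph W) (d : W → Bool) (G : SimpleGraph V) (c : V → Bool) :
    Prop where
  vert : ∀ v, ¬ SideMinor H d (G.induce {x | x ≠ v}) (fun x => c x)
  edge : ∀ a b, G.Adj a b → ¬ SideMinor H d (G.deleteEdges {s(a, b)}) c

variable {f : V → Option W}

lemma Minimal.total (hm : Minimal H d G c) (hf : IsSideModel H d G c f) (v : V) :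
    ∃ h, f v = some h := by
  rcases hfv : f v with _ | h
  · exact absurd (sideMinor_induce hf v hfv) (hm.vert v)
  · exact ⟨h, rfl⟩

/-- The basic consequence of edge minimality. -/
lemma Minimal.edge_aux (hm : Minimal H d G c) (hf : IsSideModel H d G c f) {x y : V} {g h : W}
    (hxy : G.Adj x y) (hx : f x = some g) (hy : f y = some h) (hgh : g ≠ h) :
    H.Adj g h ∧ ∀ x₀ y₀, f x₀ = some g → f y₀ = some h → c x₀ = d g → c y₀ = d h →
      G.Adj x₀ y₀ → x₀ = x ∧ y₀ = y := by
  by_contra hcon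
  apply hm.edge x y hxy
  have hne : H.Adj g h → ∃ x₀ y₀, f x₀ = some g ∧ f y₀ = some h ∧ c x₀ = d g ∧ c y₀ = d h ∧
      G.Adj x₀ y₀ ∧ ¬ (x₀ = x ∧ y₀ = y) := by
    intro hadj
    by_contra hcon'
    apply hcon
    refine ⟨hadj, fun x₀ y₀ h1 h2 h3 h4 h5 => ?_⟩
    by_contra h6
    exact hcon' ⟨x₀, y₀, h1, h2, h3, h4, h5, h6⟩
  have hfxy : f x ≠ f y := by
    rw [hx, hy]
    intro h'
    exact hgh (Option.some_injective _ h')
  refine ⟨f, ?_, ?_⟩
  · intro k
    have h1 := hf.1 k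
    rw [connected_iff] at h1 ⊢
    refine ⟨h1.1, fun a ha b hb => ?_⟩
    refine (h1.2 a ha b hb).map id (fun x hx => hx) ?_
    intro a' ha' b' hb' hadj
    right
    rw [SimpleGraph.deleteEdges_adj]
    refine ⟨hadj, ?_⟩
    rw [Set.mem_singleton_iff]
    intro heq
    have h2 : f a' = f b' := by
      rw [Set.mem_ofPred_eq] at ha' hb'
      rw [ha', hb']
    rcases Sym2.eq_iff.mp heq with ⟨h3, h4⟩ | ⟨h3, h4⟩
    · simp only [id] at h3 h4
      rw [h3, h4] at h2
      exact hfxy h2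
    · simp only [id] at h3 h4
      rw [h3, h4] at h2
      exact hfxy h2.symm
  · intro g₁ h₁ hgh₁
    obtain ⟨x₁, y₁, hx₁, hy₁, hcx₁, hcy₁, hxy₁⟩ := hf.2 g₁ h₁ hgh₁
    by_cases heq : s(x₁, y₁) = s(x, y)
    · rcases Sym2.eq_iff.mp heq with ⟨rfl, rfl⟩ | ⟨rfl, rfl⟩
      · have hg : g₁ = g := Option.some_injective _ (hx₁.symm.trans hx)
        have hh : h₁ = h := Option.some_injective _ (hy₁.symm.trans hy)
        subst hg; subst hh
        obtain ⟨x₀, y₀, h1, h2, h3, h4, h5, h6⟩ := hne hgh₁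
        refine ⟨x₀, y₀, h1, h2, h3, h4, ?_⟩
        rw [SimpleGraph.deleteEdges_adj, Set.mem_singleton_iff]
        refine ⟨h5, fun h7 => ?_⟩
        rcases Sym2.eq_iff.mp h7 with h8 | ⟨h8, h9⟩
        · exact h6 h8
        · rw [h8, hy] at h1
          exact hgh (Option.some_injective _ h1).symm
      · have hg : g₁ = h := Option.some_injective _ (hx₁.symm.trans hy)
        have hh : h₁ = g := Option.some_injective _ (hy₁.symm.trans hx)
        subst hg; subst hh
        obtain ⟨x₀, y₀, h1, h2, h3, h4, h5, h6⟩ := hne hgh₁.symm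
        refine ⟨y₀, x₀, h2, h1, h4, h3, ?_⟩
        rw [SimpleGraph.deleteEdges_adj, Set.mem_singleton_iff]
        refine ⟨h5.symm, fun h7 => ?_⟩
        rcases Sym2.eq_iff.mp h7 with ⟨h8, h9⟩ | ⟨h8, h9⟩
        · rw [h8, hx] at h2
          exact hgh (Option.some_injective _ h2)
        · exact h6 ⟨h9, h8⟩
    · refine ⟨x₁, y₁, hx₁, hy₁, hcx₁, hcy₁, ?_⟩
      rw [SimpleGraph.deleteEdges_adj, Set.mem_singleton_iff]
      exact ⟨hxy₁, heq⟩

/-- Edges between different branch sets. -/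
lemma Minimal.edge_unique (hm : Minimal H d G c) (hf : IsSideModel H d G c f) {x y : V} {g h : W}
    (hxy : G.Adj x y) (hx : f x = some g) (hy : f y = some h) (hgh : g ≠ h) :
    H.Adj g h ∧ c x = d g ∧ c y = d h ∧ ∀ x' y', f x' = some g → f y' = some h →
      G.Adj x' y' → x' = x ∧ y' = y := by
  obtain ⟨h1, h2⟩ := hm.edge_aux hf hxy hx hy hgh
  obtain ⟨x₀, y₀, h3, h4, h5, h6, h7⟩ := hf.2 g h h1
  obtain ⟨rfl, rfl⟩ := h2 x₀ y₀ h3 h4 h5 h6 h7
  refine ⟨h1, h5, h6, fun x' y' h8 h9 h10 => ?_⟩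
  obtain ⟨h11, h12⟩ := (hm.edge_aux hf h10 h8 h9 hgh).2 x₀ y₀ h3 h4 h5 h6 h7
  exact ⟨h11.symm, h12.symm⟩

/-- A branch set with two vertices has two different attachment vertices. -/
lemma Minimal.two_attachments (hm : Minimal H d G c) (hf : IsSideModel H d G c f) {h : W}
    {u₀ v₀ : V} (hu : f u₀ = some h) (hv : f v₀ = some h) (huv : u₀ ≠ v₀) :
    ∃ x₁ y₁ g₁ x₂ y₂ g₂, x₁ ≠ x₂ ∧ f x₁ = some h ∧ f x₂ = some h ∧ G.Adj x₁ y₁ ∧ G.Adj x₂ y₂ ∧
      f y₁ = some g₁ ∧ f y₂ = some g₂ ∧ g₁ ≠ h ∧ g₂ ≠ h := by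
  classical
  by_contra hcon
  have hcon' : ∀ x₁ y₁ g₁ x₂ y₂ g₂, f x₁ = some h → f x₂ = some h → G.Adj x₁ y₁ → G.Adj x₂ y₂ →
      f y₁ = some g₁ → f y₂ = some g₂ → g₁ ≠ h → g₂ ≠ h → x₁ = x₂ := by
    intro x₁ y₁ g₁ x₂ y₂ g₂ h1 h2 h3 h4 h5 h6 h7 h8
    by_contra h9
    exact hcon ⟨x₁, y₁, g₁, x₂, y₂, g₂, h9, h1, h2, h3, h4, h5, h6, h7, h8⟩
  obtain ⟨a, ha, hatt⟩ : ∃ a, f a = some h ∧ ∀ x y g, f x = some h → G.Adj x y →
      f y = some g → g ≠ h → x = a := by
    by_cases hex : ∃ x y g, f x = some h ∧ G.Adj x y ∧ f y = some g ∧ g ≠ h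
    · obtain ⟨a, y, g, h1, h2, h3, h4⟩ := hex
      exact ⟨a, h1, fun x y' g' h5 h6 h7 h8 => hcon' x y' g' a y g h5 h1 h6 h2 h7 h3 h8 h4⟩
    · refine ⟨u₀, hu, fun x y g h1 h2 h3 h4 => ?_⟩
      exact absurd ⟨x, y, g, h1, h2, h3, h4⟩ hex
  set f' : V → Option W := fun v => if f v = some h ∧ v ≠ a then none else f v with hf'
  have hf'eq : ∀ v, ¬ (f v = some h ∧ v ≠ a) → f' v = f v := fun v hv => by
    rw [hf']; simp only [hv, if_false]
  have hmod : IsSideModel H d G c f' := by
    refine ⟨?_, ?_⟩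
    · intro k
      by_cases hk : k = h
      · subst hk
        have : {v | f' v = some k} = {a} := by
          ext v
          simp only [Set.mem_ofPred_eq, Set.mem_singleton_iff]
          constructor
          · intro h1
            by_contra h2
            by_cases h3 : f v = some k
            · rw [hf'] at h1
              simp only [h3, h2, ne_eq, not_false_eq_true, and_self, if_true] at h1
              cases h1
            · rw [hf'eq v (fun h4 => h3 h4.1)] at h1
              exact h3 h1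
          · rintro rfl
            rw [hf'eq v (fun h4 => h4.2 rfl)]
            exact ha
        rw [this, connected_iff]
        refine ⟨⟨a, rfl⟩, ?_⟩
        rintro x hx y hy
        rw [Set.mem_singleton_iff] at hx hy
        subst hx; subst hy
        exact Joined.refl rfl
      · have : {v | f' v = some k} = {v | f v = some k} := by
          ext v
          simp only [Set.mem_ofPred_eq]
          by_cases h3 : f v = some h ∧ v ≠ a
          · rw [hf']
            simp only [h3, ne_eq, not_false_eq_true, and_self, if_true]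
            constructor
            · intro h4; cases h4
            · intro h4; exact absurd (Option.some_injective _ h4).symm hk
          · rw [hf'eq v h3]
        rw [this]
        exact hf.1 k
    · intro g k hgk
      obtain ⟨x, y, hx, hy, hcx, hcy, hxy⟩ := hf.2 g k hgk
      refine ⟨x, y, ?_, ?_, hcx, hcy, hxy⟩
      · rw [hf'eq x]
        · exact hx
        · rintro ⟨h1, h2⟩
          have hg : g = h := Option.some_injective _ (hx.symm.trans h1)
          subst hg
          exact h2 (hatt x y k h1 hxy hy hgk.ne')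
      · rw [hf'eq y]
        · exact hy
        · rintro ⟨h1, h2⟩
          have hg : k = h := Option.some_injective _ (hy.symm.trans h1)
          subst hg
          exact h2 (hatt y x g h1 hxy.symm hx hgk.ne)
  obtain ⟨v, hv1, hv2⟩ : ∃ v, f v = some h ∧ v ≠ a := by
    by_cases h1 : u₀ = a
    · exact ⟨v₀, hv, fun h2 => huv (h1.trans h2.symm)⟩
    · exact ⟨u₀, hu, h1⟩
  refine hm.vert v (sideMinor_induce hmod v ?_)
  rw [hf']
  simp only [hv1, hv2, ne_eq, not_false_eq_true, and_self, if_true]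

end minimal

end Pool.Agent.LibBip42
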